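import Mathlib
import Pool.Agent.Results.MP_0256c3_gt.NotSuperadic

set_option autoImplicit false

open Set Topology

universe u

namespace Pool.Agent.Y568.SC

open Pool.Agent.Results.MP_0256c3_gt.NotSuperadic

/-- `P` is `N`-ary: every nonempty subfamily `L` any `N` members of which (repetitions allowed)
have a common point has a common point. -/
def IsAry {X : Type*} (N : ℕ) (P : Set (Set X)) : Prop :=
  ∀ L : Set (Set X), L ⊆ P → L.Nonempty →
    (∀ A : Fin N → Set X, (∀ i, A i ∈ L) → (⋂ i, A i).Nonempty) → (⋂₀ L).Nonempty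

/-- an `N`-ary family is `(N + 1)`-ary -/
theorem IsAry.succ {X : Type*} {N : ℕ} {P : Set (Set X)} (h : IsAry N P) : IsAry (N + 1) P := by
  intro L hL hne hA
  refine h L hL hne fun A hA' => ?_
  obtain ⟨B, hB⟩ := hne
  obtain ⟨x, hx⟩ := hA (Fin.cons B A) (by
    intro i
    refine Fin.cases ?_ ?_ i
    · exact hB
    · exact hA')
  rw [mem_iInter] at hx
  exact ⟨x, mem_iInter.2 fun i => by simpa using hx i.succ⟩

/-- a binary family is `2`-ary -/
theorem isAry_two {X : Type*} {P : Set (Set X)} (h : IsBinary P) : IsAry 2 P := by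
  intro L hL hne hA
  refine h L hL hne fun A hA' B hB' => ?_
  obtain ⟨x, hx⟩ := hA ![A, B] (by
    intro i
    fin_cases i
    · exact hA'
    · exact hB')
  rw [mem_iInter] at hx
  exact ⟨x, by simpa using hx 0, by simpa using hx 1⟩

section Ary

variable {S : Type u} [TopologicalSpace S]

/-- A space with an `N`-ary closed subbase is compact (Alexander subbase lemma). -/
theorem compactSpace_of_ary {N : ℕ} {P : Set (Set S)} (hP : IsClosedSubbase P)
    (hB : IsAry N P) : CompactSpace S := by
  classical
  have hgen : (inferInstance : TopologicalSpace S) =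
      TopologicalSpace.generateFrom {U : Set S | Uᶜ ∈ P} := by
    apply le_antisymm
    · apply le_generateFrom
      intro U hU
      have := hP.1 _ hU
      exact isClosed_compl_iff.1 this
    · intro U hU
      obtain ⟨𝒢, h𝒢, hF⟩ := hP.2 Uᶜ (isClosed_compl_iff.2 hU)
      have hU' : U = ⋃₀ {G : Set S | Gᶜ ∈ 𝒢} := by
        rw [← compl_compl U, hF, Set.compl_sInter]
        congr 1
        ext G
        simp only [Set.mem_image, Set.mem_ofPred_eq]
        constructor
        · rintro ⟨G', hG', rfl⟩
          rwa [compl_compl]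
        · intro hG
          exact ⟨Gᶜ, hG, compl_compl G⟩
      rw [hU']
      apply @isOpen_sUnion _ (TopologicalSpace.generateFrom {U : Set S | Uᶜ ∈ P})
      intro G hG
      obtain ⟨t, htf, htP, hGt⟩ := h𝒢 _ hG
      have hG' : G = ⋂₀ ((fun A : Set S => Aᶜ) '' t) := by
        rw [← compl_compl G, hGt, Set.compl_sUnion]
      rw [hG']
      apply @Set.Finite.isOpen_sInter _ (TopologicalSpace.generateFrom {U : Set S | Uᶜ ∈ P})
      · exact htf.image _
      · rintro _ ⟨A, hA, rfl⟩
        apply TopologicalSpace.isOpen_generateFrom_of_mem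
        show Aᶜᶜ ∈ P
        rw [compl_compl]
        exact htP hA
  refine ⟨isCompact_generateFrom hgen ?_⟩
  intro Q hQ hcov
  by_cases hne : Nonempty S
  swap
  · refine ⟨∅, empty_subset _, Set.finite_empty, ?_⟩
    intro x _
    exact absurd ⟨x⟩ hne
  obtain ⟨x₀⟩ := hne
  set L : Set (Set S) := {A | Aᶜ ∈ Q} with hL
  have hLP : L ⊆ P := by
    intro A hA
    have := hQ hA
    simpa using this
  have hLne : L.Nonempty := by
    obtain ⟨U, hU, _⟩ := hcov (mem_univ x₀)
    exact ⟨Uᶜ, by simpa [hL] using hU⟩
  by_contra hcon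
  push Not at hcon
  have hlink : ∀ A : Fin N → Set S, (∀ i, A i ∈ L) → (⋂ i, A i).Nonempty := by
    intro A hA
    by_contra hAB
    rw [Set.not_nonempty_iff_eq_empty] at hAB
    apply hcon (range fun i => (A i)ᶜ) _ (Set.finite_range _)
    · intro y _
      have hy : y ∉ ⋂ i, A i := by rw [hAB]; exact notMem_empty y
      rw [mem_iInter] at hy
      push Not at hy
      obtain ⟨i, hi⟩ := hy
      exact ⟨(A i)ᶜ, ⟨i, rfl⟩, hi⟩
    · rintro U ⟨i, rfl⟩
      exact hA i
  obtain ⟨y, hy⟩ := hB L hLP hLne hlink
  obtain ⟨U, hU, hyU⟩ := hcov (mem_univ y)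
  have : y ∈ Uᶜ := hy Uᶜ (by simpa [hL] using hU)
  exact this hyU

omit [TopologicalSpace S] in
/-- more than `N` intersections of members of an `N`-ary family, all but any one of which have a
common point, have a common point -/
theorem multi {N : ℕ} {P : Set (Set S)} (hB : IsAry N P) {ι : Type} [Fintype ι]
    (hι : N < Fintype.card ι) (M : ι → Set S) (hM : ∀ i, M i ∈ Inters P)
    (h : ∀ k, ∃ x, ∀ i, i ≠ k → x ∈ M i) : ∃ x, ∀ i, x ∈ M i := by
  classical
  choose L hL hML using hM
  have hne : Nonempty ι := by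
    rw [← Fintype.card_pos_iff]; omega
  obtain ⟨k₀⟩ := hne
  rcases Set.eq_empty_or_nonempty (⋃ i, L i) with he | hne
  · obtain ⟨x, _⟩ := h k₀
    refine ⟨x, fun i => ?_⟩
    have e : L i = ∅ := by
      rw [Set.iUnion_eq_empty] at he; exact he i
    rw [hML i, e]
    simp
  · have key : (⋂₀ (⋃ i, L i)).Nonempty := by
      apply hB _ (Set.iUnion_subset hL) hne
      intro A hA
      have hA' : ∀ j, ∃ i, A j ∈ L i := fun j => mem_iUnion.1 (hA j)
      choose idx hidx using hA'
      obtain ⟨k, hk⟩ : ∃ k, k ∉ Finset.univ.image idx := by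
        by_contra hcon
        push Not at hcon
        have h1 : (Finset.univ : Finset ι) ⊆ Finset.univ.image idx := fun k _ => hcon k
        have h2 := Finset.card_le_card h1
        have h3 := Finset.card_image_le (s := (Finset.univ : Finset (Fin N))) (f := idx)
        rw [Finset.card_univ] at h2
        rw [Finset.card_univ, Fintype.card_fin] at h3
        omega
      obtain ⟨x, hx⟩ := h k
      refine ⟨x, mem_iInter.2 fun j => ?_⟩
      have h1 : idx j ≠ k := by
        rintro rfl
        exact hk (Finset.mem_image_of_mem _ (Finset.mem_univ j))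
      have h2 := hx _ h1
      rw [hML] at h2
      exact h2 _ (hidx j)
    obtain ⟨x, hx⟩ := key
    refine ⟨x, fun i => ?_⟩
    rw [hML i]
    exact fun A hA => hx A (mem_iUnion.2 ⟨i, hA⟩)

end Ary

section Combinatorics

variable {V : Type}

/-- For a countable partition of the set of all functions `V^N → Bool`, some class realises all
patterns on arbitrarily large finite cubes with sides in `W`. -/
theorem exists_rich {N : ℕ} (hN : 0 < N) {W : Set V} (hW : W.Infinite)
    (m : ((Fin N → V) → Bool) → ℕ) :
    ∃ c : ℕ, ∀ n : ℕ, ∃ A : Fin n → V, (∀ i, A i ∈ W) ∧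
      ∀ π : (Fin N → Fin n) → Bool, ∃ p : (Fin N → V) → Bool, m p = c ∧
        ∀ k, p (fun i => A (k i)) = π k := by
  classical
  by_contra hcon
  push Not at hcon
  choose n hn using hcon
  let e₁ : ℕ ↪ W := hW.natEmbedding
  let code : (Σ c : ℕ, Fin (n c)) → ℕ := Encodable.encode
  have hcode : Function.Injective code := Encodable.encode_injective
  let A : ∀ c, Fin (n c) → V := fun c i => e₁ (code ⟨c, i⟩)
  have hA : ∀ c i c' i', A c i = A c' i' → (⟨c, i⟩ : Σ c : ℕ, Fin (n c)) = ⟨c', i'⟩ := by
    intro c i c' i' h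
    exact hcode (e₁.injective (Subtype.ext h))
  have hπ : ∀ c, ∃ π : (Fin N → Fin (n c)) → Bool, ∀ p : (Fin N → V) → Bool, m p = c →
      ∃ k, p (fun i => A c (k i)) ≠ π k := by
    intro c
    exact hn c (A c) (fun i => (e₁ _).2)
  choose π hπ' using hπ
  let p : (Fin N → V) → Bool := fun x =>
    decide (∃ (c : ℕ) (k : Fin N → Fin (n c)), x = (fun i => A c (k i)) ∧ π c k = true)
  have hp : ∀ c k, p (fun i => A c (k i)) = π c k := by
    intro c k
    rw [Bool.eq_iff_iff]
    simp only [p, decide_eq_true_eq]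
    constructor
    · rintro ⟨c', k', h, hπt⟩
      have h0 : ∀ i, (⟨c, k i⟩ : Σ c : ℕ, Fin (n c)) = ⟨c', k' i⟩ := fun i =>
        hA _ _ _ _ (congrFun h i)
      obtain ⟨rfl, _⟩ := Sigma.mk.inj_iff.1 (h0 ⟨0, hN⟩)
      have h1 : k = k' := by
        funext i
        obtain ⟨_, e⟩ := Sigma.mk.inj_iff.1 (h0 i)
        exact eq_of_heq e
      rw [h1]
      exact hπt
    · intro h
      exact ⟨c, k, rfl, h⟩
  obtain ⟨k, hk⟩ := hπ' (m p) p rfl
  exact hk (hp _ k)

/-- a function from an uncountable type to `ℕ` is bounded on some infinite set -/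
theorem exists_infinite_bounded [Uncountable V] (m : V → ℕ) :
    ∃ b : ℕ, {v | m v ≤ b}.Infinite := by
  obtain ⟨a, ha⟩ := exists_infinite_fibre m
  exact ⟨a, ha.mono fun v hv => le_of_eq hv⟩

end Combinatorics

section Space

variable (N : ℕ) (V : Type)

/-- The coordinates: `N` copies of `V`, and all functions `V^N → Bool`. -/
abbrev Gam : Type := (Fin N × V) ⊕ ((Fin N → V) → Bool)

variable {N V}

/-- The kind of a coordinate. -/
def part : Gam N V → Option (Fin N) := Sum.elim (fun v => some v.1) (fun _ => none)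

variable (N V)

/-- The space: `0`-`1` functions with at most one coordinate of each of the `N + 1` kinds equal to
`1`, such that if the coordinates `α 0, …, α (N - 1)`, `p` are all `1` then `p α = true`. -/
def KSet : Set (Gam N V → Bool) :=
  {x | (∀ i j : Gam N V, i ≠ j → part i = part j → ¬ (x i = true ∧ x j = true)) ∧
    ∀ (α : Fin N → V) (p : (Fin N → V) → Bool), (∀ i, x (Sum.inl (i, α i)) = true) →
      x (Sum.inr p) = true → p α = true}

theorem isClosed_KSet : IsClosed (KSet N V) := by
  have h : KSet N V = (⋂ (i : Gam N V) (j : Gam N V) (_ : i ≠ j) (_ : part i = part j),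
      {x : Gam N V → Bool | ¬ (x i = true ∧ x j = true)}) ∩
      ⋂ (α : Fin N → V) (p : (Fin N → V) → Bool), {x : Gam N V → Bool |
        (∀ i, x (Sum.inl (i, α i)) = true) → x (Sum.inr p) = true → p α = true} := by
    ext x
    simp only [KSet, Set.mem_ofPred_eq, Set.mem_inter_iff, Set.mem_iInter]
  rw [h]
  apply IsClosed.inter
  · refine isClosed_iInter fun i => isClosed_iInter fun j => isClosed_iInter fun _ =>
      isClosed_iInter fun _ => ?_
    have : {x : Gam N V → Bool | ¬ (x i = true ∧ x j = true)} =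
        (fun x : Gam N V → Bool => (x i, x j)) ⁻¹' {y | ¬ (y.1 = true ∧ y.2 = true)} := rfl
    rw [this]
    exact (isClosed_discrete _).preimage (by fun_prop)
  · refine isClosed_iInter fun α => isClosed_iInter fun p => ?_
    have : {x : Gam N V → Bool | (∀ i, x (Sum.inl (i, α i)) = true) → x (Sum.inr p) = true →
        p α = true} =
        (fun x : Gam N V → Bool => ((fun i => x (Sum.inl (i, α i))), x (Sum.inr p))) ⁻¹'
          {y : (Fin N → Bool) × Bool | (∀ i, y.1 i = true) → y.2 = true → p α = true} := rfl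
    rw [this]
    exact (isClosed_discrete _).preimage (by fun_prop)

instance : CompactSpace (KSet N V) := isCompact_iff_compactSpace.1 (isClosed_KSet N V).isCompact

theorem supp {x : Gam N V → Bool} (hx : x ∈ KSet N V) :
    {i | x i = true}.Finite ∧ {i | x i = true}.ncard ≤ N + 1 := by
  have hinj : InjOn (part : Gam N V → Option (Fin N)) {i | x i = true} := by
    intro i hi j hj hij
    by_contra hne
    exact hx.1 i j hne hij ⟨hi, hj⟩
  have hfin : {i : Gam N V | x i = true}.Finite :=
    Set.Finite.of_finite_image (f := part) (Set.toFinite _) hinj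
  refine ⟨hfin, ?_⟩
  have h1 : {i : Gam N V | x i = true}.ncard ≤ (univ : Set (Option (Fin N))).ncard :=
    ncard_le_ncard_of_injOn part (fun _ _ => mem_univ _) hinj (Set.toFinite _)
  rw [ncard_univ, Nat.card_eq_fintype_card, Fintype.card_option, Fintype.card_fin] at h1
  exact h1

variable {N V}

/-- The point of the space given by a hyperedge. -/
theorem exists_point (α : Fin N → V) (p : (Fin N → V) → Bool) (h : p α = true) :
    ∃ x : KSet N V, (∀ i, x.1 (Sum.inl (i, α i)) = true) ∧ x.1 (Sum.inr p) = true := by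
  classical
  refine ⟨⟨fun i => decide ((∃ j, i = Sum.inl (j, α j)) ∨ i = Sum.inr p), ?_, ?_⟩, ?_, ?_⟩
  · rintro i j hij hpart ⟨hi, hj⟩
    simp only [decide_eq_true_eq] at hi hj
    rcases hi with ⟨a, rfl⟩ | rfl <;> rcases hj with ⟨b, rfl⟩ | rfl
    · simp only [part, Sum.elim_inl, Option.some.injEq] at hpart
      subst hpart
      exact hij rfl
    · simp [part] at hpart
    · simp [part] at hpart
    · exact hij rfl
  · intro α' p' h1 h2
    simp only [decide_eq_true_eq] at h1 h2
    have e1 : α' = α := by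
      funext i
      rcases h1 i with ⟨j, hj⟩ | hj
      · rw [Sum.inl.injEq, Prod.mk.injEq] at hj
        obtain ⟨rfl, h3⟩ := hj
        exact h3
      · exact absurd hj (by simp)
    have e2 : p' = p := by
      rcases h2 with ⟨j, hj⟩ | hj
      · exact absurd hj (by simp)
      · exact Sum.inr.inj hj
    rw [e1, e2]
    exact h
  · intro i
    simp
  · simp

/-- The point of the space with one coordinate equal to `1`. -/
theorem exists_single (hN : 0 < N) (γ : Gam N V) : ∃ x : KSet N V, x.1 γ = true := by
  classical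
  refine ⟨⟨fun i => decide (i = γ), ?_, ?_⟩, by simp⟩
  · rintro i j hij hpart ⟨hi, hj⟩
    simp only [decide_eq_true_eq] at hi hj
    exact hij (hi.trans hj.symm)
  · intro α p h1 h2
    simp only [decide_eq_true_eq] at h1 h2
    have := (h1 ⟨0, hN⟩).trans h2.symm
    exact absurd this (by simp)

/-- The space is not a continuous image of a space with an `N`-ary closed subbase. -/
theorem not_image (hN : 0 < N) [Uncountable V] {S : Type u} [TopologicalSpace S] {P : Set (Set S)}
    (hP : IsClosedSubbase P) (hB : IsAry N P)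
    (f : S → KSet N V) (hf : Continuous f) (hsurj : Function.Surjective f) : False := by
  classical
  have := compactSpace_of_ary hP hB
  have hclopen : ∀ i : Gam N V, IsClopen (f ⁻¹' {x : KSet N V | x.1 i = true}) := by
    intro i
    apply IsClopen.preimage _ hf
    have : {x : KSet N V | x.1 i = true} = (fun x : KSet N V => x.1 i) ⁻¹' {true} := rfl
    rw [this]
    exact (isClopen_discrete _).preimage ((continuous_apply i).comp continuous_subtype_val)
  have hunion : ∀ i : Gam N V, ∃ (n : ℕ) (M : ℕ → Set S), (∀ j, M j ∈ Inters P) ∧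
      ∀ b, n ≤ b → ∀ s, (f s).1 i = true ↔ ∃ j < b, s ∈ M j := by
    intro i
    obtain ⟨n, M, hM, hU⟩ := clopen_finite_union hP (hclopen i)
    have h1 : ∀ s, (f s).1 i = true ↔ ∃ j : Fin n, s ∈ M j := by
      intro s
      have h1 : (f s).1 i = true ↔ s ∈ f ⁻¹' {x : KSet N V | x.1 i = true} := Iff.rfl
      rw [h1, hU, Set.mem_iUnion]
    have hn : 0 < n := by
      obtain ⟨x, hx⟩ := exists_single hN i
      obtain ⟨s, rfl⟩ := hsurj x
      obtain ⟨j, _⟩ := (h1 s).1 hx
      exact j.pos
    refine ⟨n, fun j => if h : j < n then M ⟨j, h⟩ else M ⟨0, hn⟩, ?_, ?_⟩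
    · intro j
      dsimp only
      split_ifs
      · exact hM _
      · exact hM _
    · intro b hb s
      rw [h1]
      constructor
      · rintro ⟨j, hj⟩
        refine ⟨j, j.2.trans_le hb, ?_⟩
        simp only [j.2, dif_pos]
        exact hj
      · rintro ⟨j, _, hj⟩
        dsimp only at hj
        split_ifs at hj with h
        · exact ⟨_, hj⟩
        · exact ⟨_, hj⟩
  choose m M hM hMU using hunion
  -- a common bound on an infinite set
  obtain ⟨b, hb⟩ := exists_infinite_bounded (fun v : V =>
    Finset.univ.sup fun i : Fin N => m (Sum.inl (i, v)))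
  obtain ⟨c, hc⟩ := exists_rich hN hb (fun p => m (Sum.inr p))
  let n : ℕ := N * (b ^ (N - 1) * c) + 1
  obtain ⟨A, hAW, hAp⟩ := hc n
  have hAm : ∀ (i : Fin N) (j : Fin n), m (Sum.inl (i, A j)) ≤ b := by
    intro i j
    have h1 : (Finset.univ.sup fun i : Fin N => m (Sum.inl (i, A j))) ≤ b := hAW j
    exact (Finset.le_sup (f := fun i : Fin N => m (Sum.inl (i, A j))) (Finset.mem_univ i)).trans h1
  choose p hpc hpπ using hAp
  -- the tables
  let T : ((Fin N → Fin n) → Bool) → (l : Fin N) → ({i : Fin N // i ≠ l} → Fin n × Fin b) →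
      Fin c → Bool := fun π l z w =>
    decide (∃ s, (∀ i : {i : Fin N // i ≠ l}, s ∈ M (Sum.inl (i.1, A (z i).1)) (z i).2) ∧
      s ∈ M (Sum.inr (p π)) w)
  have key : ∀ π k, π k = true ↔ ∃ (v : Fin N → Fin b) (w : Fin c),
      (∃ s, ∀ i, s ∈ M (Sum.inl (i, A (k i))) (v i)) ∧
      ∀ l, T π l (fun i => (k i.1, v i.1)) w = true := by
    intro π k
    constructor
    · intro hH
      obtain ⟨x, hx1, hx2⟩ := exists_point (fun i => A (k i)) (p π) (by rw [hpπ]; exact hH)
      obtain ⟨s, rfl⟩ := hsurj x
      have h1 : ∀ i, ∃ v : Fin b, s ∈ M (Sum.inl (i, A (k i))) v := by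
        intro i
        obtain ⟨v, hv, hs⟩ := (hMU _ b (hAm i (k i)) _).1 (hx1 i)
        exact ⟨⟨v, hv⟩, hs⟩
      choose v hv using h1
      obtain ⟨w, hw, hsw⟩ := (hMU _ c (hpc π).le _).1 hx2
      refine ⟨v, ⟨w, hw⟩, ⟨s, hv⟩, fun l => ?_⟩
      exact decide_eq_true ⟨s, fun i => hv i.1, hsw⟩
    · rintro ⟨v, w, hv, hT⟩
      have hT' : ∀ l, ∃ s, (∀ i : {i : Fin N // i ≠ l}, s ∈ M (Sum.inl (i.1, A (k i.1))) (v i.1)) ∧
          s ∈ M (Sum.inr (p π)) w := fun l => of_decide_eq_true (hT l)
      let MM : Option (Fin N) → Set S := fun o =>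
        o.elim (M (Sum.inr (p π)) w) (fun i => M (Sum.inl (i, A (k i))) (v i))
      obtain ⟨s, hs⟩ := multi hB (ι := Option (Fin N)) (by simp) MM (by
        rintro (_ | i)
        · exact hM _ _
        · exact hM _ _) (by
        rintro (_ | l)
        · obtain ⟨s, hs⟩ := hv
          refine ⟨s, ?_⟩
          rintro (_ | i) hi
          · exact absurd rfl hi
          · exact hs i
        · obtain ⟨s, hs1, hs2⟩ := hT' l
          refine ⟨s, ?_⟩
          rintro (_ | i) hi
          · exact hs2
          · exact hs1 ⟨i, fun h => hi (by rw [h])⟩)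
      have e1 : ∀ i, (f s).1 (Sum.inl (i, A (k i))) = true := fun i =>
        (hMU _ b (hAm i (k i)) s).2 ⟨v i, (v i).2, hs (some i)⟩
      have e2 : (f s).1 (Sum.inr (p π)) = true :=
        (hMU _ c (hpc π).le s).2 ⟨w, w.2, hs none⟩
      rw [← hpπ π k]
      exact (f s).2.2 _ _ e1 e2
  have hinj : Function.Injective T := by
    intro π π' h
    funext k
    rw [Bool.eq_iff_iff, key π, key π', h]
  have hcard := Fintype.card_le_of_injective _ hinj
  have hsub : ∀ l : Fin N, Fintype.card {i : Fin N // i ≠ l} = N - 1 := by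
    intro l
    rw [Fintype.card_subtype_compl, Fintype.card_subtype_eq, Fintype.card_fin]
  simp only [Fintype.card_pi, Fintype.card_prod, Fintype.card_fin, Fintype.card_bool,
    Finset.prod_const, Finset.card_univ, hsub] at hcard
  rw [← pow_mul, ← pow_mul] at hcard
  have hle := (Nat.pow_le_pow_iff_right (by norm_num : 1 < 2)).1 hcard
  have hn0 : 0 < n := Nat.succ_pos _
  have e1 : n ^ N = n ^ (N - 1) * n := by
    rw [← pow_succ]; congr 1; omega
  have e2 : c * ((n * b) ^ (N - 1) * N) = n ^ (N - 1) * (N * (b ^ (N - 1) * c)) := by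
    rw [mul_pow]; ring
  rw [e1, e2] at hle
  have h3 := Nat.le_of_mul_le_mul_left hle (pow_pos hn0 _)
  have h4 : n = N * (b ^ (N - 1) * c) + 1 := rfl
  omega

end Space

section Omega

variable (V : Type)

/-- The coordinates of the spaces for all `N`. -/
abbrev GamO : Type := Σ N : ℕ, Gam (N + 1) V

/-- The bouquet of the spaces for all `N`: only coordinates of one block may be `1`, and they give
a point of the space of this block. -/
def KOmega : Set (GamO V → Bool) :=
  {x | (∀ N, (fun i : Gam (N + 1) V => x ⟨N, i⟩) ∈ KSet (N + 1) V) ∧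
    ∀ i j : GamO V, i.1 ≠ j.1 → ¬ (x i = true ∧ x j = true)}

theorem isClosed_KOmega : IsClosed (KOmega V) := by
  have h : KOmega V = (⋂ N : ℕ, {x : GamO V → Bool |
      (fun i : Gam (N + 1) V => x ⟨N, i⟩) ∈ KSet (N + 1) V}) ∩
      ⋂ (i : GamO V) (j : GamO V) (_ : i.1 ≠ j.1),
      {x : GamO V → Bool | ¬ (x i = true ∧ x j = true)} := by
    ext x
    simp only [KOmega, Set.mem_ofPred_eq, Set.mem_inter_iff, Set.mem_iInter]
  rw [h]
  apply IsClosed.inter
  · refine isClosed_iInter fun N => ?_
    exact (isClosed_KSet (N + 1) V).preimage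
      (continuous_pi fun i => continuous_apply (⟨N, i⟩ : GamO V))
  · refine isClosed_iInter fun i => isClosed_iInter fun j => isClosed_iInter fun _ => ?_
    have : {x : GamO V → Bool | ¬ (x i = true ∧ x j = true)} =
        (fun x : GamO V → Bool => (x i, x j)) ⁻¹' {y | ¬ (y.1 = true ∧ y.2 = true)} := rfl
    rw [this]
    exact (isClosed_discrete _).preimage (by fun_prop)

instance : CompactSpace (KOmega V) :=
  isCompact_iff_compactSpace.1 (isClosed_KOmega V).isCompact

theorem supp_omega {x : GamO V → Bool} (hx : x ∈ KOmega V) : {i | x i = true}.Finite := by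
  classical
  rcases Set.eq_empty_or_nonempty {i | x i = true} with he | ⟨i₀, hi₀⟩
  · rw [he]; exact finite_empty
  · obtain ⟨N, i₀⟩ := i₀
    have h1 := (supp (N + 1) V (hx.1 N)).1
    refine (h1.image (fun i => (⟨N, i⟩ : GamO V))).subset ?_
    rintro ⟨M, j⟩ hj
    have hM : M = N := by
      by_contra hne
      exact hx.2 ⟨M, j⟩ ⟨N, i₀⟩ hne ⟨hj, hi₀⟩
    subst hM
    exact ⟨j, hj, rfl⟩

/-- the retraction onto the `N`-th space -/
def ret (N : ℕ) (x : KOmega V) : KSet (N + 1) V := ⟨fun i => x.1 ⟨N, i⟩, x.2.1 N⟩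

theorem ret_continuous (N : ℕ) : Continuous (ret V N) := by
  refine Continuous.subtype_mk ?_ _
  exact continuous_pi fun i => (continuous_apply (⟨N, i⟩ : GamO V)).comp continuous_subtype_val

theorem ret_surjective (N : ℕ) : Function.Surjective (ret V N) := by
  classical
  intro y
  let x : GamO V → Bool := fun i => if h : i.1 = N then y.1 (h ▸ i.2) else false
  have hx1 : ∀ i : Gam (N + 1) V, x ⟨N, i⟩ = y.1 i := by
    intro i
    simp [x]
  have hx2 : ∀ (M : ℕ) (i : Gam (M + 1) V), M ≠ N → x ⟨M, i⟩ = false := by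
    intro M i hM
    simp [x, hM]
  refine ⟨⟨x, ?_, ?_⟩, ?_⟩
  · intro M
    by_cases hM : M = N
    · subst hM
      have : (fun i : Gam (M + 1) V => x ⟨M, i⟩) = y.1 := funext hx1
      rw [this]
      exact y.2
    · constructor
      · rintro i j - - ⟨hi, -⟩
        have hi' : x ⟨M, i⟩ = true := hi
        rw [hx2 M i hM] at hi'
        exact absurd hi' (by simp)
      · intro α p _ h2
        have h2' : x ⟨M, Sum.inr p⟩ = true := h2
        rw [hx2 M _ hM] at h2'
        exact absurd h2' (by simp)
  · rintro ⟨M, i⟩ ⟨M', j⟩ hne ⟨hi, hj⟩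
    by_cases hM : M = N
    · subst hM
      rw [hx2 M' j (fun h => hne h.symm)] at hj
      exact absurd hj (by simp)
    · rw [hx2 M i hM] at hi
      exact absurd hi (by simp)
  · apply Subtype.ext
    funext i
    exact hx1 i

end Omega

/-- a compact set of characteristic functions of finite sets is Eberlein compact -/
theorem eberlein_of_finite {Γ : Type} (K : Set (Γ → Bool)) [CompactSpace K]
    (h : ∀ x ∈ K, {i | x i = true}.Finite) : EberleinCompact K := by
  refine ⟨inferInstance, Γ, fun x i => if x.1 i = true then 1 else 0, ?_, ?_⟩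
  · apply Topology.IsClosedEmbedding.isEmbedding
    apply Continuous.isClosedEmbedding
    · refine continuous_pi fun i => ?_
      have : (fun x : K => if x.1 i = true then (1 : ℝ) else 0) =
          (fun b : Bool => if b = true then (1 : ℝ) else 0) ∘ (fun x : K => x.1 i) := rfl
      rw [this]
      exact continuous_of_discreteTopology.comp ((continuous_apply i).comp continuous_subtype_val)
    · intro x y hxy
      apply Subtype.ext
      funext i
      have h := congrFun hxy i
      simp only at h
      rw [Bool.eq_iff_iff]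
      constructor
      · intro hx
        by_contra hy
        rw [if_pos hx, if_neg hy] at h
        exact one_ne_zero h
      · intro hy
        by_contra hx
        rw [if_pos hy, if_neg hx] at h
        exact zero_ne_one h
  · intro x ε hε
    apply (h x.1 x.2).subset
    intro i hi
    by_contra hxi
    have h0 : (if x.1 i = true then (1 : ℝ) else 0) = 0 := if_neg hxi
    have h1 : ε ≤ |if x.1 i = true then (1 : ℝ) else 0| := hi
    rw [h0, abs_zero] at h1
    linarith

end Pool.Agent.Y568.SC
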